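import Pool.Agent.Lib.K3.Defs

/-!
# CzS: moments from the binomials `C_i`

PROOF. Strong induction on `i < m`. `i! * cz p i t = ∏_{j<i} (t + [i/2] - j)` (`i! ≠ 0` in `ZMod p` because `i < p`:
`(ZMod.natCast_eq_zero_iff _ _)`, `Nat.Prime.dvd_factorial`) is the value at `t` of the monic polynomial
`Q = ∏_{j<i} (X + C ([i/2] - j))` of degree `i` (`Polynomial.monic_prod_of_monic`, `natDegree_prod_of_monic`), so
`= t^i + ∑_{j<i} coeff Q j * t^j` (`Polynomial.eval_eq_sum_range`, `Monic.coeff_natDegree`). Multiply by `φ t` and sum: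
`0 = ∑ φ t^i + ∑_{j<i} coeff Q j * 0`.
-/

set_option autoImplicit false

open Polynomial Finset

namespace K3S

variable {p : ℕ} [Fact p.Prime]

theorem moments_of_cz (m : ℕ) (hm : m ≤ p) (φ : ZMod p → ZMod p)
    (h : ∀ i < m, ∑ t : ZMod p, φ t * Pool.K3.cz p i t = 0) :
    ∀ i < m, ∑ t : ZMod p, φ t * t ^ i = 0 := by
  intro i
  induction i using Nat.strong_induction_on with
  | _ i ih =>
    intro hi
    have hp : p.Prime := Fact.out
    have hf : ((i.factorial : ℕ) : ZMod p) ≠ 0 := by
      intro h0
      rw [ZMod.natCast_eq_zero_iff] at h0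
      have := (Nat.Prime.dvd_factorial hp).1 h0
      omega
    set Q : (ZMod p)[X] := ∏ j ∈ range i, (X + C (((i / 2 : ℕ) : ZMod p) - (j : ZMod p))) with hQ
    have hmon : Q.Monic := monic_prod_of_monic _ _ (fun j _ => monic_X_add_C _)
    have hdeg : Q.natDegree = i := by
      rw [hQ, natDegree_prod_of_monic _ _ (fun j _ => monic_X_add_C _)]
      simp only [natDegree_X_add_C, sum_const, card_range, smul_eq_mul, mul_one]
    have hcz : ∀ t : ZMod p, ((i.factorial : ℕ) : ZMod p) * Pool.K3.cz p i t = Q.eval t := by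
      intro t
      rw [hQ, eval_prod, Pool.K3.cz]
      simp only [eval_add, eval_X, eval_C]
      rw [mul_comm (∏ j ∈ range i, _) _, ← mul_assoc, mul_inv_cancel₀ hf, one_mul]
      refine prod_congr rfl fun j _ => ?_
      ring
    have hex : ∀ t : ZMod p, Q.eval t = t ^ i + ∑ j ∈ range i, Q.coeff j * t ^ j := by
      intro t
      rw [eval_eq_sum_range, hdeg, sum_range_succ]
      have : Q.coeff i = 1 := by
        have := hmon.coeff_natDegree
        rwa [hdeg] at this
      rw [this]; ring
    have h1 : ∑ t : ZMod p, φ t * Q.eval t = 0 := by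
      have : ∑ t : ZMod p, φ t * Q.eval t
          = ((i.factorial : ℕ) : ZMod p) * ∑ t : ZMod p, φ t * Pool.K3.cz p i t := by
        rw [mul_sum]
        refine sum_congr rfl fun t _ => ?_
        rw [← hcz t]; ring
      rw [this, h i hi, mul_zero]
    have h2 : ∑ t : ZMod p, φ t * Q.eval t
        = ∑ t : ZMod p, φ t * t ^ i + ∑ j ∈ range i, Q.coeff j * ∑ t : ZMod p, φ t * t ^ j := by
      have : ∀ t : ZMod p, φ t * Q.eval t
          = φ t * t ^ i + ∑ j ∈ range i, Q.coeff j * (φ t * t ^ j) := by
        intro t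
        rw [hex t, mul_add, mul_sum]
        congr 1
        refine sum_congr rfl fun j _ => ?_
        ring
      simp_rw [this]
      rw [sum_add_distrib, sum_comm]
      congr 1
      refine sum_congr rfl fun j _ => ?_
      rw [mul_sum]
    have h3 : ∑ j ∈ range i, Q.coeff j * ∑ t : ZMod p, φ t * t ^ j = 0 := by
      refine sum_eq_zero fun j hj => ?_
      have hj' := mem_range.1 hj
      rw [ih j hj' (by omega), mul_zero]
    rw [h2, h3, add_zero] at h1
    exact h1

end K3S
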