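import Pool.Agent.Lib.K3S.Span
import Pool.Agent.Lib.K3S.CzS
import Pool.Agent.Lib.K3.Cyc

/-!
# SpanFn: the spanning lemma for the 12 m functions of helper46's design

PROOF. `H1 = HH p 1`, `H2 = HH p 2`: `HH_succ` (module `K3/Cyc`, `p ≥ 5`). `hh H1 H2 w t = hm p (qk w) t` (`fin_cases w`).
`c0`: the delta at `ev m a` (`Finset.sum_ite_eq`); every integer `-m ≤ z < m` is `ev m a` with `a = z + m`.
`c1, c2, c3`: the poles `pk 0, pk 1, pk 2`. `c4`: `moments_of_cz` with `φ t = g t * hh H1 H2 w t`, for `w : Fin 4`.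
-/

set_option autoImplicit false

open Polynomial Finset

namespace Pool.K3

theorem span_fn {p : ℕ} [Fact p.Prime] (m : ℕ) (hm : 8 ≤ m) (h1 : 2 * m + 3 < p)
    (h2 : p + 42 ≤ 12 * m) (g : ZMod p → ZMod p)
    (h : ∀ f : Ix m, ∑ t : ZMod p, g t * fn p m f t = 0) : g = 0 := by
  have hev : ∀ z : ℤ, -(m : ℤ) ≤ z → z < m → ∃ a : Fin (2 * m), ev m a = z := by
    intro z hz1 hz2
    refine ⟨⟨(z + m).toNat, by omega⟩, ?_⟩
    unfold ev
    simp only
    omega
  have hhh : ∀ (w : Fin 4) (t : ZMod p), K3S.hh (HH p 1) (HH p 2) w t = Pool.K3.hm p (qk w) t := by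
    intro w t
    fin_cases w <;> simp [K3S.hh, Pool.K3.hm, qk]
  refine K3S.span_lemma m (by omega) (by omega) h2 (HH p 1) (HH p 2) ?_ ?_ g ?_ ?_ ?_ ?_ ?_
  · intro t
    have := HH_succ (p := p) (i := 1) (by omega) (by omega) t
    rwa [pow_one] at this
  · intro t
    exact HH_succ (p := p) (i := 2) (by omega) (by omega) t
  · intro z hz1 hz2
    obtain ⟨a, ha⟩ := hev z hz1 hz2
    have := h (.inl a)
    simp only [fn, ha, mul_ite, mul_one, mul_zero] at this
    rw [Finset.sum_ite_eq' Finset.univ (z : ZMod p) g] at this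
    simpa using this
  · intro z hz1 hz2
    obtain ⟨a, ha⟩ := hev z hz1 hz2
    have := h (.inr (.inl (0, a)))
    simpa [fn, ha, pk, Pool.K3.hm] using this
  · intro z hz1 hz2
    obtain ⟨a, ha⟩ := hev z hz1 hz2
    have := h (.inr (.inl (1, a)))
    simpa [fn, ha, pk, Pool.K3.hm] using this
  · intro z hz1 hz2
    obtain ⟨a, ha⟩ := hev z hz1 hz2
    have := h (.inr (.inl (2, a)))
    rw [← this]
    refine Finset.sum_congr rfl fun t _ => ?_
    simp only [fn, ha, pk, Pool.K3.hm]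
    simp
    ring
  · intro w
    refine K3S.moments_of_cz m (by omega) (fun t => g t * K3S.hh (HH p 1) (HH p 2) w t) ?_
    intro i hi
    have := h (.inr (.inr (w, ⟨i, hi⟩)))
    rw [← this]
    refine Finset.sum_congr rfl fun t _ => ?_
    simp only [fn, hhh]
    ring

end Pool.K3
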