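import Pool.Agent.Lib.K3S.Trace

/-!
# TrInv: the traces of `1/x` and `1/x^2`

PROOF. `Tr ((x-1)⁻¹) = ∑_a (x - 1 + a)⁻¹ = ∑_a (x + a)⁻¹` (reindex; `sa a (X - 1) = X + C a - 1`).
`P = x^p - x = ∏_a (X + C a)` (`FiniteField.X_pow_card_sub_X_eq_prod`-like; `ZMod.card`, `a ↦ -a`; or: monic of degree `p`
with the roots `t`, `FiniteField.prod_X_sub_C_eq`). `e_a = ∏_{b ≠ a} (X + C b)`, `(X + C a) e_a = P`.
`Tr_inv`: `∑_a e_a = P' = p x^(p-1) - 1 = -1` (`Polynomial.derivative_prod`). In `K`: `(al (X + C a))⁻¹ = al e_a * (al P)⁻¹`.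
`Tr_inv2`: differentiate `(X + C a) e_a = P`: `e_a + (X + C a) e_a' = -1`, multiply by `e_a`:
`e_a^2 + P e_a' = - e_a`. Sum over `a`: `∑ e_a^2 = - ∑ e_a - P (∑ e_a)' = 1 - 0`.
`PP_ne`: `X^p - X` is monic (`p > 1`). `Sa_PP`: `(x - 1)^p - (x - 1) = x^p - x` (`add_pow_char`, `ZMod.pow_card`).
-/

set_option autoImplicit false

open Polynomial Finset

namespace K3S

variable {p : ℕ} [Fact p.Prime]

private theorem TrInv_two : 1 < p := (Fact.out : p.Prime).one_lt

private theorem TrInv_monic : (PP p).Monic := by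
  unfold PP
  exact monic_X_pow_sub (by rw [degree_X]; exact_mod_cast TrInv_two (p := p))

private theorem TrInv_prod : ∏ a : ZMod p, (X + C a) = PP p := by
  have hr : (PP p).roots = (Finset.univ : Finset (ZMod p)).val := by
    have := FiniteField.roots_X_pow_card_sub_X (ZMod p)
    rw [ZMod.card] at this
    exact this
  have hdeg : (PP p).natDegree = p := by
    unfold PP
    exact FiniteField.X_pow_card_sub_X_natDegree_eq (ZMod p) (TrInv_two (p := p))
  have h := prod_multiset_X_sub_C_of_monic_of_roots_card_eq (TrInv_monic (p := p))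
    (by rw [hr, hdeg]; simp [ZMod.card])
  rw [hr] at h
  rw [← h]
  change _ = ∏ a : ZMod p, (X - C a)
  exact Fintype.prod_equiv (Equiv.neg _) _ _ (fun a => by simp)

open Classical in
private noncomputable def TrInv_e (a : ZMod p) : (ZMod p)[X] :=
  ∏ b ∈ (Finset.univ : Finset (ZMod p)).erase a, (X + C b)

private theorem TrInv_mul_e (a : ZMod p) : (X + C a) * TrInv_e a = PP p := by
  classical
  rw [← TrInv_prod]
  unfold TrInv_e
  exact Finset.mul_prod_erase (Finset.univ : Finset (ZMod p)) (fun b => X + C b)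
    (Finset.mem_univ a)

private theorem TrInv_der : derivative (PP p) = -1 := by
  unfold PP
  rw [derivative_sub, derivative_X_pow, derivative_X]
  simp

private theorem TrInv_sum_e : ∑ a : ZMod p, TrInv_e a = (-1 : (ZMod p)[X]) := by
  classical
  rw [← TrInv_der, ← TrInv_prod, derivative_prod_finset]
  refine Finset.sum_congr rfl fun a _ => ?_
  unfold TrInv_e
  simp

private theorem TrInv_sq (a : ZMod p) :
    TrInv_e a ^ 2 = - TrInv_e a - PP p * derivative (TrInv_e a) := by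
  have h1 := congrArg derivative (TrInv_mul_e a)
  rw [derivative_mul, TrInv_der] at h1
  have h2 : derivative (X + C a : (ZMod p)[X]) = 1 := by simp
  rw [h2, one_mul] at h1
  have h3 : TrInv_e a * (TrInv_e a + (X + C a) * derivative (TrInv_e a)) = TrInv_e a * (-1) := by
    rw [h1]
  rw [← TrInv_mul_e a]
  linear_combination h3

private theorem TrInv_sum_sq : ∑ a : ZMod p, TrInv_e a ^ 2 = (1 : (ZMod p)[X]) := by
  have h : ∑ a : ZMod p, TrInv_e a ^ 2 =
      ∑ a : ZMod p, (- TrInv_e a - PP p * derivative (TrInv_e a)) :=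
    Finset.sum_congr rfl fun a _ => TrInv_sq a
  rw [h, Finset.sum_sub_distrib, Finset.sum_neg_distrib, ← Finset.mul_sum, ← derivative_sum,
    TrInv_sum_e]
  simp

theorem PP_ne : al (PP p) ≠ 0 := by
  have h : PP p ≠ 0 := TrInv_monic.ne_zero
  intro h0
  exact h ((IsFractionRing.injective (ZMod p)[X] (K p)) (by rw [map_zero]; exact h0))

private theorem TrInv_inv (a : ZMod p) :
    (al (X + C a : (ZMod p)[X]))⁻¹ = al (TrInv_e a) * (al (PP p))⁻¹ := by
  have h := congrArg (algebraMap (ZMod p)[X] (K p)) (TrInv_mul_e a)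
  rw [map_mul] at h
  have h1 : algebraMap (ZMod p)[X] (K p) (X + C a) ≠ 0 := by
    intro h0
    rw [h0, zero_mul] at h
    exact PP_ne h.symm
  have h2 : algebraMap (ZMod p)[X] (K p) (PP p) ≠ 0 := PP_ne
  rw [eq_mul_inv_iff_mul_eq₀ h2, ← h]
  field_simp

private theorem TrInv_Sa (a : ZMod p) :
    Sa a ((al (X - 1 : (ZMod p)[X]))⁻¹) = (al (X + C (a - 1) : (ZMod p)[X]))⁻¹ := by
  rw [map_inv₀, Sa_al]
  congr 2
  unfold sa
  rw [map_sub, map_one]
  simp [algEquivAevalXAddC_apply, add_sub_assoc]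

theorem Tr_inv : Tr ((al (X - 1 : (ZMod p)[X]))⁻¹) = - (al (PP p))⁻¹ := by
  unfold Tr
  have h1 : ∀ a : ZMod p, Sa a ((al (X - 1 : (ZMod p)[X]))⁻¹) =
      al (TrInv_e (a - 1)) * (al (PP p))⁻¹ := fun a => by rw [TrInv_Sa, TrInv_inv]
  rw [Finset.sum_congr rfl fun a _ => h1 a, ← Finset.sum_mul]
  have h2 : ∑ a : ZMod p, al (TrInv_e (a - 1)) = ∑ a : ZMod p, al (TrInv_e a) :=
    Fintype.sum_equiv (Equiv.subRight 1) _ _ (fun a => rfl)
  rw [h2]
  have h3 : ∑ a : ZMod p, al (TrInv_e a) = algebraMap (ZMod p)[X] (K p) (∑ a, TrInv_e a) := by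
    rw [map_sum]
  rw [h3, TrInv_sum_e]
  simp

theorem Tr_inv2 : Tr ((al (X - 1 : (ZMod p)[X]))⁻¹ ^ 2) = (al (PP p))⁻¹ ^ 2 := by
  unfold Tr
  have h1 : ∀ a : ZMod p, Sa a ((al (X - 1 : (ZMod p)[X]))⁻¹ ^ 2) =
      al (TrInv_e (a - 1) ^ 2) * (al (PP p))⁻¹ ^ 2 := fun a => by
    rw [map_pow, TrInv_Sa, TrInv_inv, mul_pow]
    congr 1
    exact (map_pow (algebraMap (ZMod p)[X] (K p)) _ 2).symm
  rw [Finset.sum_congr rfl fun a _ => h1 a, ← Finset.sum_mul]
  have h2 : ∑ a : ZMod p, al (TrInv_e (a - 1) ^ 2) = ∑ a : ZMod p, al (TrInv_e a ^ 2) :=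
    Fintype.sum_equiv (Equiv.subRight 1) _ _ (fun a => rfl)
  rw [h2]
  have h3 : ∑ a : ZMod p, al (TrInv_e a ^ 2) =
      algebraMap (ZMod p)[X] (K p) (∑ a, TrInv_e a ^ 2) := by
    rw [map_sum]
  rw [h3, TrInv_sum_sq]
  simp

theorem Sa_PP : Sa (-1) (al (PP p))⁻¹ = (al (PP p))⁻¹ := by
  rw [map_inv₀, Sa_al]
  congr 2
  unfold sa PP
  rw [map_sub, map_pow]
  have h : (algEquivAevalXAddC (-1 : ZMod p)) (X : (ZMod p)[X]) = X - 1 := by
    simp [algEquivAevalXAddC_apply, sub_eq_add_neg]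
  rw [h, sub_pow_char]
  ring

end K3S
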