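import Pool.Agent.Lib.K3S.KillT
import Pool.Agent.Lib.K3S.TrInv

/-!
# Class: classification of the functionals

`n 0 ≠ 0`. Write `S = Sa (-1)`, `u = (al (X - 1))⁻¹`, `π = (al P)⁻¹`, `Tr u = -π`, `Tr u^2 = π^2`, `p ≠ 2`.
PROOF.
(A) `Kill n 1 (f,0,0,0)` gives `f * al (n 0) = 0`, so `f = 0`.
(B) `Kill n 2 (a,b,0,0)` gives `b = 0` (and then `a = 0` by (A)). If `b ≠ 0` let `v = (a/b, 1, 0, 0)`, `Kill n 2 v`, and
`tau v - v = (S(a/b) - a/b - u, 0, 0, 0)` is killed with `j = 1`, so it is `0`: `S(a/b) - a/b = u`; take `Tr`: `0 = -π`. Contradiction.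
(C) `Kill n 3 (a,b,c,0)`, `c ≠ 0`: let `v = (a/c, b/c, 1, 0) = (a', b', 1, 0)`. `tau v - v = (S a' - a' - S b' u - u^2, S b' - b', 0, 0)`,
`Kill n 2`, so by (B) `S b' = b'` and by (A) `S a' - a' - b' u - u^2 = 0`; `Tr` (`Tr_mul` for `b'`): `b' π - π^2 = 0`,
so `b' = π`: `b = c π`.
(D) `Kill n 4 (a,b,c,d)` gives `d = 0`. If `d ≠ 0` normalise `d = 1`: `v = (a,b,c,1)`. `w = tau v - v = (.., S b - b - 2 u, S c - c, 0)`,
`Kill n 3 w`. If `S c - c = 0`: `Kill n 2`, (B): `S b - b - 2 u = 0`, `Tr`: `2 π = 0`, contradiction (`p ≠ 2`). If `S c - c ≠ 0`: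
(C): `S b - b - 2 u = (S c - c) π`; `Tr` of the left side is `2 π`, of the right side `0` (`Tr_mul` with `Sa_PP`).
(E) `Kill n 3 (a,b,0,d)` gives `d = 0`: normalise `d = 1`, `tau v - v = (.., S b - b - 2 u, 0, 0)`, `Kill n 2`: (B) `S b - b = 2 u`,
`Tr`: contradiction. Then (B) gives `b = 0`, (A) gives `a = 0`.
`exc`: `Matrix.exists_vecMul_eq_zero_iff` (over the field `K`, for the matrix mapped by `al`; `RingHom.map_det`) gives a nonzero
`w` with `Kill n 4 w`. (D): `w 3 = 0`. If `w 2 = 0` then (B), (A) give `w = 0`. So `w 2 ≠ 0`, (C): `w 1 = w 2 π`. Divide by `w 2`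
and multiply by `P`.
`det3_ne`: if the determinant is `0` there is a nonzero `(a,b,d) ∈ K^3`, that is `Kill n 3 (a,b,0,d)`: contradiction to (E).
-/

set_option autoImplicit false

open Polynomial Finset

namespace K3S

variable {p : ℕ} [Fact p.Prime]

private theorem Class_pi_ne : (al (PP p))⁻¹ ≠ 0 := inv_ne_zero PP_ne

private theorem Class_two (hp : p ≠ 2) : (2 : K p) ≠ 0 := by
  have h : (2 : K p) = al (C 2 : (ZMod p)[X]) := by
    have e : (C 2 : (ZMod p)[X]) = 2 := map_ofNat C 2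
    rw [e]
    exact (map_ofNat (algebraMap (ZMod p)[X] (K p)) 2).symm
  rw [h]
  intro h0
  have h1 : (C 2 : (ZMod p)[X]) = 0 := by
    apply IsFractionRing.injective (ZMod p)[X] (K p)
    rw [map_zero]
    exact h0
  rw [C_eq_zero] at h1
  have h2 : ((2 : ℕ) : ZMod p) = 0 := by exact_mod_cast h1
  rw [ZMod.natCast_eq_zero_iff] at h2
  have h3 := (Nat.prime_dvd_prime_iff_eq (Fact.out : p.Prime) Nat.prime_two).mp h2
  exact hp h3

private theorem Class_trS (f : K p) : Tr (Sa (-1) f - f) = 0 := by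
  rw [Tr_sub, Tr_Sa, sub_self]

private theorem Class_A (n : Fin 4 → (ZMod p)[X]) (hn : n 0 ≠ 0) (w : Fin 4 → K p)
    (h : Kill n 1 w) (h1 : w 1 = 0) (h2 : w 2 = 0) (h3 : w 3 = 0) : w 0 = 0 := by
  have h4 := h 0 one_pos
  rw [Fin.sum_univ_four, h1, h2, h3] at h4
  simp only [zero_mul, add_zero, Function.iterate_zero, id_eq] at h4
  rcases mul_eq_zero.mp h4 with h5 | h5
  · exact h5
  · exfalso
    apply hn
    apply IsFractionRing.injective (ZMod p)[X] (K p)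
    rw [map_zero]
    exact h5

private theorem Class_tau0 (v : Fin 4 → K p) : tau v 0 =
    Sa (-1) (v 0) - Sa (-1) (v 1) * (al (X - 1))⁻¹ - Sa (-1) (v 2) * (al (X - 1))⁻¹ ^ 2 +
      Sa (-1) (v 3) * (al (X - 1))⁻¹ ^ 2 := by
  simp [tau]

private theorem Class_tau1 (v : Fin 4 → K p) : tau v 1 =
    Sa (-1) (v 1) - 2 * Sa (-1) (v 3) * (al (X - 1))⁻¹ := by
  simp [tau]

private theorem Class_tau2 (v : Fin 4 → K p) : tau v 2 = Sa (-1) (v 2) := by
  simp [tau]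

private theorem Class_tau3 (v : Fin 4 → K p) : tau v 3 = Sa (-1) (v 3) := by
  simp [tau]

private theorem Class_diff (n : Fin 4 → (ZMod p)[X]) (j : ℕ) (v : Fin 4 → K p)
    (h : Kill n (j + 1) v) : Kill n j (tau v - v) :=
  Kill_sub n j _ _ (Kill_tau n j v h) (Kill_mono n j (j + 1) (Nat.le_succ j) v h)

private theorem Class_B (n : Fin 4 → (ZMod p)[X]) (hn : n 0 ≠ 0) (w : Fin 4 → K p)
    (h : Kill n 2 w) (h2 : w 2 = 0) (h3 : w 3 = 0) : w 1 = 0 := by
  by_contra hb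
  set v : Fin 4 → K p := fun i => (w 1)⁻¹ * w i with hv
  have hk : Kill n 2 v := Kill_smul n 2 _ w h
  have v1 : v 1 = 1 := by simp [hv, inv_mul_cancel₀ hb]
  have v2 : v 2 = 0 := by simp [hv, h2]
  have v3 : v 3 = 0 := by simp [hv, h3]
  have hd := Class_diff n 1 v hk
  have d1 : (tau v - v) 1 = 0 := by
    rw [Pi.sub_apply, Class_tau1, v1, v3]; simp
  have d2 : (tau v - v) 2 = 0 := by
    rw [Pi.sub_apply, Class_tau2, v2]; simp
  have d3 : (tau v - v) 3 = 0 := by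
    rw [Pi.sub_apply, Class_tau3, v3]; simp
  have d0 := Class_A n hn _ hd d1 d2 d3
  rw [Pi.sub_apply, Class_tau0, v1, v2, v3] at d0
  simp only [map_one, map_zero, one_mul, zero_mul, sub_zero, add_zero] at d0
  have e : Sa (-1) (v 0) - v 0 = (al (X - 1 : (ZMod p)[X]))⁻¹ := by linear_combination d0
  have t := congrArg Tr e
  rw [Class_trS, Tr_inv] at t
  exact Class_pi_ne (neg_eq_zero.mp t.symm)

private theorem Class_C (n : Fin 4 → (ZMod p)[X]) (hn : n 0 ≠ 0) (w : Fin 4 → K p)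
    (h : Kill n 3 w) (h3 : w 3 = 0) (hc : w 2 ≠ 0) : w 1 = w 2 * (al (PP p))⁻¹ := by
  set v : Fin 4 → K p := fun i => (w 2)⁻¹ * w i with hv
  have hk : Kill n 3 v := Kill_smul n 3 _ w h
  have v2 : v 2 = 1 := by simp [hv, inv_mul_cancel₀ hc]
  have v3 : v 3 = 0 := by simp [hv, h3]
  have hd := Class_diff n 2 v hk
  have d2 : (tau v - v) 2 = 0 := by
    rw [Pi.sub_apply, Class_tau2, v2]; simp
  have d3 : (tau v - v) 3 = 0 := by
    rw [Pi.sub_apply, Class_tau3, v3]; simp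
  have d1 := Class_B n hn _ hd d2 d3
  have d0 := Class_A n hn _ (Kill_mono n 1 2 (by norm_num) _ hd) d1 d2 d3
  rw [Pi.sub_apply, Class_tau1, v3] at d1
  simp only [map_zero, mul_zero, zero_mul, sub_zero] at d1
  have e1 : Sa (-1) (v 1) = v 1 := sub_eq_zero.mp d1
  rw [Pi.sub_apply, Class_tau0, v2, v3, e1] at d0
  simp only [map_one, map_zero, one_mul, zero_mul, add_zero] at d0
  have e : Sa (-1) (v 0) - v 0 =
      v 1 * (al (X - 1 : (ZMod p)[X]))⁻¹ - (-((al (X - 1 : (ZMod p)[X]))⁻¹ ^ 2)) := by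
    linear_combination d0
  have t := congrArg Tr e
  have hneg : Tr (-((al (X - 1 : (ZMod p)[X]))⁻¹ ^ 2)) = - (al (PP p))⁻¹ ^ 2 := by
    have h0 : Tr (0 : K p) = 0 := by simp [Tr]
    have := Tr_sub (0 : K p) ((al (X - 1 : (ZMod p)[X]))⁻¹ ^ 2)
    rw [zero_sub, h0, zero_sub, Tr_inv2] at this
    exact this
  rw [Class_trS, Tr_sub, Tr_mul _ _ e1, Tr_inv, hneg] at t
  have e2 : v 1 = (al (PP p))⁻¹ := by
    have h5 : (al (PP p))⁻¹ * (v 1 - (al (PP p))⁻¹) = 0 := by linear_combination t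
    rcases mul_eq_zero.mp h5 with h6 | h6
    · exact absurd h6 Class_pi_ne
    · exact sub_eq_zero.mp h6
  have e3 : w 1 = w 2 * v 1 := by
    simp only [hv]
    rw [← mul_assoc, mul_inv_cancel₀ hc, one_mul]
  rw [e3, e2]

private theorem Class_trd (v : K p) :
    Tr (Sa (-1) v - 2 * (al (X - 1 : (ZMod p)[X]))⁻¹ - v) = 2 * (al (PP p))⁻¹ := by
  have e : Sa (-1) v - 2 * (al (X - 1 : (ZMod p)[X]))⁻¹ - v =
      (Sa (-1) v - v) - 2 * (al (X - 1 : (ZMod p)[X]))⁻¹ := by ring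
  rw [e, Tr_sub, Class_trS, Tr_mul _ _ (map_ofNat _ 2), Tr_inv]
  ring

private theorem Class_D (hp : p ≠ 2) (n : Fin 4 → (ZMod p)[X]) (hn : n 0 ≠ 0) (w : Fin 4 → K p)
    (h : Kill n 4 w) : w 3 = 0 := by
  by_contra hb
  set v : Fin 4 → K p := fun i => (w 3)⁻¹ * w i with hv
  have hk : Kill n 4 v := Kill_smul n 4 _ w h
  have v3 : v 3 = 1 := by simp [hv, inv_mul_cancel₀ hb]
  have hd := Class_diff n 3 v hk
  have d3 : (tau v - v) 3 = 0 := by
    rw [Pi.sub_apply, Class_tau3, v3]; simp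
  have d1 : (tau v - v) 1 = Sa (-1) (v 1) - 2 * (al (X - 1 : (ZMod p)[X]))⁻¹ - v 1 := by
    rw [Pi.sub_apply, Class_tau1, v3, map_one, mul_one]
  have d2 : (tau v - v) 2 = Sa (-1) (v 2) - v 2 := by
    rw [Pi.sub_apply, Class_tau2]
  have h2pi : (2 : K p) * (al (PP p))⁻¹ ≠ 0 := mul_ne_zero (Class_two hp) Class_pi_ne
  by_cases hc : (tau v - v) 2 = 0
  · have e := Class_B n hn _ (Kill_mono n 2 3 (by norm_num) _ hd) hc d3
    rw [d1] at e
    have t := congrArg Tr e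
    rw [Class_trd] at t
    exact h2pi (t.trans (by simp [Tr]))
  · have e := Class_C n hn _ hd d3 hc
    rw [d1, d2] at e
    have t := congrArg Tr e
    rw [Class_trd, mul_comm, mul_comm (Sa (-1) (v 2) - v 2), Tr_mul _ _ Sa_PP, Class_trS,
      mul_zero, mul_comm] at t
    exact h2pi t

private theorem Class_E (hp : p ≠ 2) (n : Fin 4 → (ZMod p)[X]) (hn : n 0 ≠ 0) (w : Fin 4 → K p)
    (h : Kill n 3 w) (h2 : w 2 = 0) : w 3 = 0 := by
  by_contra hb
  set v : Fin 4 → K p := fun i => (w 3)⁻¹ * w i with hv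
  have hk : Kill n 3 v := Kill_smul n 3 _ w h
  have v3 : v 3 = 1 := by simp [hv, inv_mul_cancel₀ hb]
  have v2 : v 2 = 0 := by simp [hv, h2]
  have hd := Class_diff n 2 v hk
  have d3 : (tau v - v) 3 = 0 := by
    rw [Pi.sub_apply, Class_tau3, v3]; simp
  have d1 : (tau v - v) 1 = Sa (-1) (v 1) - 2 * (al (X - 1 : (ZMod p)[X]))⁻¹ - v 1 := by
    rw [Pi.sub_apply, Class_tau1, v3, map_one, mul_one]
  have d2 : (tau v - v) 2 = 0 := by
    rw [Pi.sub_apply, Class_tau2, v2]; simp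
  have e := Class_B n hn _ hd d2 d3
  rw [d1] at e
  have t := congrArg Tr e
  rw [Class_trd] at t
  exact mul_ne_zero (Class_two hp) Class_pi_ne (t.trans (by simp [Tr]))

/-- the exceptional relation -/
theorem exc (hp : p ≠ 2) (n : Fin 4 → (ZMod p)[X]) (hn : n 0 ≠ 0)
    (hd : (Matrix.of fun i k : Fin 4 => (Psi^[(k : ℕ)] n) i).det = 0) :
    ∃ f : K p, ∀ k < 4, al (PP p) * al ((Psi^[k] n) 2) + al ((Psi^[k] n) 1) +
      f * al ((Psi^[k] n) 0) = 0 := by
  have hd' : (Matrix.of fun i k : Fin 4 => al ((Psi^[(k : ℕ)] n) i)).det = 0 := by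
    have h1 := congrArg (algebraMap (ZMod p)[X] (K p)) hd
    rw [map_zero, RingHom.map_det] at h1
    exact h1
  obtain ⟨w, hw0, hw⟩ := Matrix.exists_vecMul_eq_zero_iff.mpr hd'
  have hk : Kill n 4 w := by
    intro k hk4
    have h1 := congrFun hw ⟨k, hk4⟩
    simpa [Matrix.vecMul, dotProduct] using h1
  have w3 := Class_D hp n hn w hk
  have w2 : w 2 ≠ 0 := by
    intro h2
    have h1 := Class_B n hn w (Kill_mono n 2 4 (by norm_num) w hk) h2 w3
    have h0 := Class_A n hn w (Kill_mono n 1 4 (by norm_num) w hk) h1 h2 w3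
    apply hw0
    funext i
    fin_cases i
    · exact h0
    · exact h1
    · exact h2
    · exact w3
  have w1 := Class_C n hn w (Kill_mono n 3 4 (by norm_num) w hk) w3 w2
  refine ⟨(w 2)⁻¹ * w 0 * al (PP p), fun k hk4 => ?_⟩
  have h1 := hk k hk4
  rw [Fin.sum_univ_four, w3, w1] at h1
  have hP : al (PP p) ≠ 0 := PP_ne
  have h2 : w 2 * (w 2)⁻¹ = 1 := mul_inv_cancel₀ w2
  have h3 : al (PP p) * (al (PP p))⁻¹ = 1 := mul_inv_cancel₀ hP
  calc al (PP p) * al ((Psi^[k] n) 2) + al ((Psi^[k] n) 1) +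
      (w 2)⁻¹ * w 0 * al (PP p) * al ((Psi^[k] n) 0)
      = (w 2)⁻¹ * al (PP p) * (w 0 * al ((Psi^[k] n) 0) +
          w 2 * (al (PP p))⁻¹ * al ((Psi^[k] n) 1) + w 2 * al ((Psi^[k] n) 2) +
          0 * al ((Psi^[k] n) 3)) := by
        field_simp
        ring
    _ = 0 := by rw [h1, mul_zero]

theorem det3_ne (hp : p ≠ 2) (n : Fin 4 → (ZMod p)[X]) (hn : n 0 ≠ 0) :
    (Matrix.of fun i k : Fin 3 => (Psi^[(k : ℕ)] n) ((![0, 1, 3] : Fin 3 → Fin 4) i)).det ≠ 0 := by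
  intro hd
  have hd' : (Matrix.of fun i k : Fin 3 =>
      al ((Psi^[(k : ℕ)] n) ((![0, 1, 3] : Fin 3 → Fin 4) i))).det = 0 := by
    have h1 := congrArg (algebraMap (ZMod p)[X] (K p)) hd
    rw [map_zero, RingHom.map_det] at h1
    exact h1
  obtain ⟨v, hv0, hv⟩ := Matrix.exists_vecMul_eq_zero_iff.mpr hd'
  set w : Fin 4 → K p := ![v 0, v 1, 0, v 2] with hw
  have hk : Kill n 3 w := by
    intro k hk3
    have h1 := congrFun hv ⟨k, hk3⟩
    rw [Fin.sum_univ_four]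
    simp only [Matrix.vecMul, dotProduct, Matrix.of_apply, Fin.sum_univ_three, Pi.zero_apply,
      Matrix.cons_val_zero, Matrix.cons_val_one, Matrix.cons_val] at h1
    simp only [hw, Matrix.cons_val_zero, Matrix.cons_val_one, Matrix.cons_val]
    linear_combination h1
  have w2 : w 2 = 0 := by simp [hw]
  have w3 := Class_E hp n hn w hk w2
  have w1 := Class_B n hn w (Kill_mono n 2 3 (by norm_num) w hk) w2 w3
  have w0 := Class_A n hn w (Kill_mono n 1 3 (by norm_num) w hk) w1 w2 w3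
  apply hv0
  funext i
  fin_cases i
  · simpa [hw] using w0
  · simpa [hw] using w1
  · simpa [hw] using w3

end K3S
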