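import Mathlib

/-!
# The spanning lemma for k = 3 (`p` not dividing `B_(p-3)`): definitions

`H1, H2 : ZMod p → ZMod p` satisfy `H1 (t+1) = H1 t + t⁻¹`, `H2 (t+1) = H2 t + (t⁻¹)^2` for ALL `t` (`0⁻¹ = 0`).
`hh H1 H2 w`, `w : Fin 4`, are the four functions `1, H1, H2, H1^2`.
For a quadruple `n` of polynomials `Psi n` is `x^2 M(x)⁻¹ n(x+1)`, where `h(x+1) = M(x) h(x)`.
`K` is the field of rational functions, `Sa a` the automorphism `x ↦ x + a` (`a : ZMod p`), `Tr` the sum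
of the `p` conjugates.
-/

set_option autoImplicit false

open Polynomial Finset

namespace K3S

variable {p : ℕ} [Fact p.Prime]

/-- the four functions `1, H1, H2, H1^2` -/
def hh (H1 H2 : ZMod p → ZMod p) (w : Fin 4) (t : ZMod p) : ZMod p :=
  (![1, H1 t, H2 t, H1 t ^ 2] : Fin 4 → ZMod p) w

/-- `q(x) ↦ q(x + a)` -/
noncomputable def sa (a : ZMod p) : (ZMod p)[X] ≃ₐ[ZMod p] (ZMod p)[X] := algEquivAevalXAddC a

/-- the shift operator on quadruples of polynomials -/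
noncomputable def Psi (n : Fin 4 → (ZMod p)[X]) : Fin 4 → (ZMod p)[X] :=
  ![X ^ 2 * sa 1 (n 0), X ^ 2 * sa 1 (n 1) - X * sa 1 (n 0), X ^ 2 * sa 1 (n 2) - sa 1 (n 0),
    X ^ 2 * sa 1 (n 3) - 2 * X * sa 1 (n 1) + sa 1 (n 0)]

/-- the orders `3, 2, 1, 1` -/
def oo (w : Fin 4) : ℕ := (![3, 2, 1, 1] : Fin 4 → ℕ) w

/-- `x^p - x` -/
noncomputable def PP (p : ℕ) [Fact p.Prime] : (ZMod p)[X] := X ^ p - X

/-- rational functions -/
abbrev K (p : ℕ) [Fact p.Prime] := FractionRing (ZMod p)[X]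

/-- the embedding of the polynomials -/
noncomputable abbrev al (q : (ZMod p)[X]) : K p := algebraMap (ZMod p)[X] (K p) q

/-- the automorphism `x ↦ x + a` of the rational functions -/
noncomputable def Sa (a : ZMod p) : K p ≃+* K p :=
  IsFractionRing.ringEquivOfRingEquiv (sa a).toRingEquiv

/-- sum of the conjugates -/
noncomputable def Tr (f : K p) : K p := ∑ a : ZMod p, Sa a f

/-- the functional `w` kills `Psi^k n` for `k < j` -/
def Kill (n : Fin 4 → (ZMod p)[X]) (j : ℕ) (w : Fin 4 → K p) : Prop :=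
  ∀ k < j, ∑ i, w i * al ((Psi^[k] n) i) = 0

/-- the shifted functional `(w M⁻¹)(x - 1)` -/
noncomputable def tau (w : Fin 4 → K p) : Fin 4 → K p :=
  ![Sa (-1) (w 0) - Sa (-1) (w 1) * (al (X - 1))⁻¹ - Sa (-1) (w 2) * (al (X - 1))⁻¹ ^ 2 +
      Sa (-1) (w 3) * (al (X - 1))⁻¹ ^ 2,
    Sa (-1) (w 1) - 2 * Sa (-1) (w 3) * (al (X - 1))⁻¹, Sa (-1) (w 2), Sa (-1) (w 3)]

/-- the hypotheses of the zero estimate -/
structure Hyp (m : ℕ) (H1 H2 g : ZMod p → ZMod p) (n : Fin 4 → (ZMod p)[X]) : Prop where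
  hm : 4 ≤ m
  h2m : 2 * m ≤ p
  h12 : p + 42 ≤ 12 * m
  h1 : ∀ t, H1 (t + 1) = H1 t + t⁻¹
  h2 : ∀ t, H2 (t + 1) = H2 t + t⁻¹ ^ 2
  deg : ∀ w, (n w).natDegree ≤ p - 1 - m
  ev : ∀ w t, (n w).eval t = g t * hh H1 H2 w t
  ord : ∀ z : ℤ, -(m : ℤ) ≤ z → z < m → ∀ w, (X - C (z : ZMod p)) ^ oo w ∣ n w

open Classical in
/-- the residues of `-m, ..., m - 1 - r` -/
noncomputable def Z (p m r : ℕ) [Fact p.Prime] : Finset (ZMod p) :=
  (Ico (-(m : ℤ)) ((m : ℤ) - r)).image fun z : ℤ => (z : ZMod p)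

end K3S
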