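import Mathlib

/-!
# DetOrd: orders of vanishing of determinants of polynomials

PROOF. `dvd_of_rows`: write `M i j = (X - C e)^(o i) * N i j`; `Matrix.det_mul_column` (or `det_mul_row`).
`dvd_of_rank_one`: `h 0 = 1`. Let `M' i j = M i j - C (h i) * M 0 j` for `i ≠ 0` and `M' 0 j = M 0 j`:
the determinant is unchanged (`Matrix.det_eq_of_forall_row_eq_smul_add_const` with `k = 0` or multiply by a unipotent
matrix), and for `i ≠ 0`: `eval t (M' i j) = c_j h_i - h_i c_j = 0`, so `(X - C t) ∣ M' i j`. Use `dvd_of_rows`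
with `o 0 = 0`, `o i = 1`.
`natDegree_det`: `det M = ∑ σ, sign * ∏ i, M (σ i) i` and `natDegree (∏) ≤ ∑ (D + 2 i)`
(`Polynomial.natDegree_sum_le_of_forall_le`, `natDegree_prod_le`, `Matrix.det_apply`).
`eq_zero_of_orders`: if `q ≠ 0` then `o t ≤ rootMultiplicity t q` (`Polynomial.le_rootMultiplicity_iff`), and
`∑_t rootMultiplicity t q ≤ natDegree q` (`Polynomial.card_roots'`, `count_roots`,
`Multiset.sum_count_eq_card` / `Finset.sum_multiset_count_of_subset`).
-/

set_option autoImplicit false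

open Polynomial Finset

namespace K3S

theorem dvd_of_rows {F : Type} [Field F] {n : ℕ} (M : Matrix (Fin n) (Fin n) F[X]) (e : F)
    (o : Fin n → ℕ) (h : ∀ i j, (X - C e) ^ o i ∣ M i j) : (X - C e) ^ (∑ i, o i) ∣ M.det := by
  choose N hN using h
  have h1 : M = Matrix.of fun i j => (X - C e) ^ o i * (Matrix.of N) i j := by
    ext1 i j
    rw [hN i j]
    rfl
  rw [h1, Matrix.det_mul_column, Finset.prod_pow_eq_pow_sum]
  exact dvd_mul_right _ _

theorem dvd_of_rank_one {F : Type} [Field F] {n : ℕ} (M : Matrix (Fin (n + 1)) (Fin (n + 1)) F[X])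
    (t : F) (h : Fin (n + 1) → F) (h0 : h 0 = 1) (hM : ∀ j, ∃ c, ∀ i, (M i j).eval t = c * h i) :
    (X - C t) ^ n ∣ M.det := by
  have hdet : Matrix.det (Matrix.of fun i j => M i j + (if i = 0 then 0 else -C (h i)) * M 0 j)
      = M.det := by
    refine Matrix.det_eq_of_forall_row_eq_smul_add_const
      (fun i : Fin (n + 1) => if i = 0 then (0 : F[X]) else -C (h i)) 0 (by simp) ?_
    intro i j
    rfl
  rw [← hdet]
  have key := dvd_of_rows (Matrix.of fun i j => M i j + (if i = 0 then 0 else -C (h i)) * M 0 j) t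
    (fun i => if i = 0 then 0 else 1) ?_
  · have hs : (∑ i : Fin (n + 1), if i = 0 then 0 else 1) = n := by
      rw [Fin.sum_univ_succ]
      simp [Fin.succ_ne_zero]
    rwa [hs] at key
  · intro i j
    by_cases hi : i = 0
    · simp [hi]
    · simp only [hi, if_false, Matrix.of_apply, pow_one]
      rw [Polynomial.dvd_iff_isRoot, Polynomial.IsRoot.def]
      obtain ⟨c, hc⟩ := hM j
      simp only [eval_add, eval_mul, eval_neg, eval_C, hc i, hc 0, h0]
      ring

theorem natDegree_det {F : Type} [Field F] {n : ℕ} (M : Matrix (Fin n) (Fin n) F[X]) (D : ℕ)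
    (h : ∀ i j, (M i j).natDegree ≤ D + 2 * (j : ℕ)) :
    M.det.natDegree ≤ ∑ j : Fin n, (D + 2 * (j : ℕ)) := by
  rw [Matrix.det_apply]
  refine Polynomial.natDegree_sum_le_of_forall_le _ _ fun σ _ => ?_
  refine (natDegree_smul_le _ _).trans ?_
  refine (Polynomial.natDegree_prod_le _ _).trans ?_
  exact Finset.sum_le_sum fun j _ => h (σ j) j

theorem eq_zero_of_orders {F : Type} [Field F] [Fintype F] [DecidableEq F] (q : F[X]) (o : F → ℕ)
    (h : ∀ t, (X - C t) ^ o t ∣ q) (hd : q.natDegree < ∑ t, o t) : q = 0 := by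
  by_contra hq
  have h1 : ∑ t, o t ≤ ∑ t : F, q.roots.count t := by
    refine Finset.sum_le_sum fun t _ => ?_
    rw [count_roots]
    exact (Polynomial.le_rootMultiplicity_iff hq).2 (h t)
  have h2 : ∑ t : F, q.roots.count t = Multiset.card q.roots :=
    Multiset.sum_count_eq_card fun a _ => Finset.mem_univ a
  have h3 := Polynomial.card_roots' q
  omega

end K3S
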