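import Pool.Agent.Lib.K3S.Interp

/-!
# Dvd: sums with poles are divisibility conditions

PROOF. `dvd_one` is `Polynomial.dvd_iff_isRoot`.
`step`: let `N = (X - C e)^k * R` with `k ≥ 1`, `natDegree N < p`. For `t ≠ e`: `N(t) (t - e)^(-k) = R(t)`, and at
`t = e` the summand `N(e) * 0⁻¹ ^ k = 0`. So `∑_t N(t) ((t-e)⁻¹)^k = ∑_t R(t) - R(e) = - coeff R (p-1) - R(e) = - R(e)`
(`natDegree R ≤ natDegree N - k ≤ p - 2`, `sum_eval`). If the sum is `0` then `R(e) = 0` and `(X - C e)^(k+1) ∣ N`.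
-/

set_option autoImplicit false

open Polynomial Finset

namespace K3S

variable {p : ℕ} [Fact p.Prime]

theorem dvd_step (N : (ZMod p)[X]) (hN : N.natDegree < p) (e : ZMod p) (k : ℕ) (hk : 1 ≤ k)
    (hd : (X - C e) ^ k ∣ N) (h : ∑ t : ZMod p, N.eval t * (t - e)⁻¹ ^ k = 0) :
    (X - C e) ^ (k + 1) ∣ N := by
  have hp := (Fact.out : p.Prime).two_le
  obtain ⟨R, rfl⟩ := hd
  by_cases hR : R = 0
  · rw [hR, mul_zero]
    exact dvd_zero _
  have hdeg : R.natDegree < p - 1 := by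
    rw [natDegree_mul (pow_ne_zero _ (X_sub_C_ne_zero e)) hR, natDegree_pow, natDegree_X_sub_C,
      mul_one] at hN
    omega
  have h1 : ∀ t : ZMod p, ((X - C e) ^ k * R).eval t * (t - e)⁻¹ ^ k =
      R.eval t - (if t = e then R.eval e else 0) := by
    intro t
    by_cases ht : t = e
    · subst ht
      rw [if_pos rfl, sub_self, sub_self, inv_zero, zero_pow (by omega), mul_zero]
    · have hte : t - e ≠ 0 := sub_ne_zero.mpr ht
      rw [if_neg ht, sub_zero, eval_mul, eval_pow, eval_sub, eval_X, eval_C, mul_right_comm,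
        ← mul_pow, mul_inv_cancel₀ hte, one_pow, one_mul]
  rw [Finset.sum_congr rfl fun t _ => h1 t, Finset.sum_sub_distrib, Finset.sum_ite_eq',
    if_pos (Finset.mem_univ _)] at h
  have h2 : ∑ t : ZMod p, R.eval t = 0 := by
    rw [sum_eval R (by omega), coeff_eq_zero_of_natDegree_lt hdeg, neg_zero]
  rw [h2, zero_sub, neg_eq_zero] at h
  rw [pow_succ]
  exact mul_dvd_mul_left _ (dvd_iff_isRoot.mpr h)

end K3S
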