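import Pool.Agent.Lib.K3S.Defs

/-!
# Interp: interpolation and sums over ZMod p

PROOF. `exists_interp`: `Lagrange.interpolate univ id f` (`Lagrange.eval_interpolate_at_node`,
`Lagrange.degree_interpolate_lt`, `card univ = p`).
`sum_eval`: for `natDegree q ≤ p - 1`: `∑_t q(t) = - coeff q (p-1)`: expand `q` as a sum of monomials,
`∑_t t^i = 0` for `i < p - 1` (`FiniteField.sum_pow_lt_card_sub_one`, note `i = 0` gives `p = 0`) and `∑_t t^(p-1) = -1`
(`t^(p-1) = 1` for `t ≠ 0`, `ZMod.pow_card_sub_one_eq_one`, `0^(p-1) = 0`).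
`coeff_zero`: induction on `i`: suppose the coefficients `p-1, ..., p-i` of `N` vanish. Then `X^i N` has
degree at most `p - 1`, `sum_eval` and the hypothesis give `coeff N (p-1-i) = 0`.
-/

set_option autoImplicit false

open Polynomial Finset

namespace K3S

variable {p : ℕ} [Fact p.Prime]

theorem exists_interp (f : ZMod p → ZMod p) :
    ∃ N : (ZMod p)[X], N.natDegree < p ∧ ∀ t, N.eval t = f t := by
  have hp : 0 < p := (Fact.out : p.Prime).pos
  have hinj : Set.InjOn (id : ZMod p → ZMod p) ((Finset.univ : Finset (ZMod p)) : Set (ZMod p)) :=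
    Function.injective_id.injOn
  refine ⟨Lagrange.interpolate Finset.univ id f, ?_, ?_⟩
  · have h1 := Lagrange.degree_interpolate_lt (s := Finset.univ) (v := (id : ZMod p → ZMod p)) f hinj
    rw [Finset.card_univ, ZMod.card] at h1
    by_cases h0 : Lagrange.interpolate Finset.univ id f = 0
    · rw [h0]; simpa using hp
    · exact (natDegree_lt_iff_degree_lt h0).2 h1
  · intro t
    exact Lagrange.eval_interpolate_at_node f hinj (Finset.mem_univ t)

private theorem Interp_sum_pow_top : ∑ t : ZMod p, t ^ (p - 1) = -1 := by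
  have hp1 : p - 1 ≠ 0 := by
    have := (Fact.out : p.Prime).one_lt
    omega
  have h1 : ∑ t : ZMod p, t ^ (p - 1) = ∑ t : ZMod p, (if t = 0 then (0 : ZMod p) else 1) := by
    refine Finset.sum_congr rfl fun t _ => ?_
    by_cases ht : t = 0
    · simp [ht, hp1]
    · rw [ZMod.pow_card_sub_one_eq_one ht, if_neg ht]
  rw [h1]
  have h2 : ∑ t : ZMod p, (if t = 0 then (0 : ZMod p) else 1)
      = ∑ t : ZMod p, (1 - (if t = 0 then (1 : ZMod p) else 0)) := by
    refine Finset.sum_congr rfl fun t _ => ?_
    by_cases ht : t = 0 <;> simp [ht]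
  rw [h2, Finset.sum_sub_distrib, Finset.sum_ite_eq' Finset.univ (0 : ZMod p) (fun _ => (1 : ZMod p))]
  simp

theorem sum_eval (q : (ZMod p)[X]) (hq : q.natDegree ≤ p - 1) :
    ∑ t : ZMod p, q.eval t = - q.coeff (p - 1) := by
  have hp : 1 < p := (Fact.out : p.Prime).one_lt
  have hlt : q.natDegree < p := by omega
  have h1 : ∀ t : ZMod p, q.eval t = ∑ i ∈ Finset.range p, q.coeff i * t ^ i := by
    intro t
    exact eval_eq_sum_range' hlt t
  simp_rw [h1]
  rw [Finset.sum_comm]
  have h2 : ∀ i ∈ Finset.range p, i ≠ p - 1 → ∑ t : ZMod p, q.coeff i * t ^ i = 0 := by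
    intro i hi hne
    rw [← Finset.mul_sum]
    have hi' : i < p - 1 := by
      have := Finset.mem_range.1 hi
      omega
    have h3 : ∑ t : ZMod p, t ^ i = 0 := by
      apply FiniteField.sum_pow_lt_card_sub_one
      rw [ZMod.card]; exact hi'
    rw [h3, mul_zero]
  rw [Finset.sum_eq_single_of_mem (p - 1) (Finset.mem_range.2 (by omega)) h2, ← Finset.mul_sum,
    Interp_sum_pow_top, mul_neg, mul_one]

/-- vanishing of the first `m` moments is a degree condition -/
theorem natDegree_of_moments (N : (ZMod p)[X]) (m : ℕ) (hm : m < p) (hN : N.natDegree < p)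
    (h : ∀ i < m, ∑ t : ZMod p, N.eval t * t ^ i = 0) : N.natDegree ≤ p - 1 - m := by
  have hp : 1 < p := (Fact.out : p.Prime).one_lt
  induction m with
  | zero => omega
  | succ m ih =>
    have h1 : N.natDegree ≤ p - 1 - m := ih (by omega) (fun i hi => h i (by omega))
    have h2 : (N * X ^ m).natDegree ≤ p - 1 := by
      refine le_trans natDegree_mul_le ?_
      rw [natDegree_X_pow]
      omega
    have h3 := sum_eval (N * X ^ m) h2
    have h4 : ∑ t : ZMod p, (N * X ^ m).eval t = 0 := by
      have h5 := h m (by omega)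
      rw [← h5]
      refine Finset.sum_congr rfl fun t _ => ?_
      rw [eval_mul, eval_pow, eval_X]
    rw [h4] at h3
    have h6 : (N * X ^ m).coeff (p - 1) = N.coeff (p - 1 - m) := by
      have h7 : p - 1 = (p - 1 - m) + m := by omega
      rw [h7, coeff_mul_X_pow]
      simp
    rw [h6] at h3
    have h8 : N.coeff (p - 1 - m) = 0 := by
      have := neg_eq_zero.1 h3.symm
      exact this
    by_contra hcon
    have h9 : N.natDegree = p - 1 - m := by omega
    have h10 : N.leadingCoeff = 0 := by
      rw [leadingCoeff, h9, h8]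
    rw [leadingCoeff_eq_zero] at h10
    rw [h10, natDegree_zero] at hcon
    omega

end K3S
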