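import Pool.Agent.Lib.K3S.Shift

/-!
# Iter: the iterates of `Psi` under the hypotheses `Hyp`

PROOF. `iter_deg`: induction on `k`, `Psi_natDegree`, `Function.iterate_succ_apply'`.
`iter_dvd`: induction on `k` (for all `z`): `z + (k+1) < m` gives the claim for `k` at `z + 1` (cast `((z+1 : ℤ) : ZMod p) = z + 1`), `Psi_dvd`.
`iter_eval`: induction on `k` (for all `t`): if `t + j ≠ 0` for `j < k + 1` then `t ≠ 0` and the claim for `k` at `t + 1`
(`(t + 1) + j = t + (j + 1)`), `Psi_eval`. Base `k = 0`: `c = g t`.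
`Z_card`: `-m ≤ z < m - r` has `2 m - r` elements, the cast is injective on it because `2 m ≤ p`
(`ZMod.intCast_eq_intCast_iff_dvd_sub`, `|z - z'| < p`).
`Z_ne`: `0, -1, -2` lie in `Z p m r` for `r ≤ 3` (`m ≥ 4`).
-/

set_option autoImplicit false

open Polynomial Finset

namespace K3S

variable {p : ℕ} [Fact p.Prime]

theorem iter_deg {m : ℕ} {H1 H2 g : ZMod p → ZMod p} {n : Fin 4 → (ZMod p)[X]}
    (h : Hyp m H1 H2 g n) (k : ℕ) : ∀ w, ((Psi^[k] n) w).natDegree ≤ p - 1 - m + 2 * k := by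
  induction k with
  | zero => exact fun w => h.deg w
  | succ k ih =>
    intro w
    rw [Function.iterate_succ_apply']
    exact Psi_natDegree _ _ ih w

theorem iter_dvd {m : ℕ} {H1 H2 g : ZMod p → ZMod p} {n : Fin 4 → (ZMod p)[X]}
    (h : Hyp m H1 H2 g n) (k : ℕ) : ∀ z : ℤ, -(m : ℤ) ≤ z → z + k < m →
      ∀ w, (X - C (z : ZMod p)) ^ oo w ∣ (Psi^[k] n) w := by
  induction k with
  | zero => exact fun z h1 h2 w => h.ord z h1 (by simpa using h2) w
  | succ k ih =>
    intro z h1 h2 w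
    rw [Function.iterate_succ_apply']
    refine Psi_dvd _ _ (fun w => ?_) w
    have h3 := ih (z + 1) (by omega) (by push_cast at h2 ⊢; omega) w
    have h4 : (((z + 1 : ℤ)) : ZMod p) = (z : ZMod p) + 1 := by push_cast; rfl
    rwa [h4] at h3

theorem iter_eval {m : ℕ} {H1 H2 g : ZMod p → ZMod p} {n : Fin 4 → (ZMod p)[X]}
    (h : Hyp m H1 H2 g n) (k : ℕ) : ∀ t : ZMod p, (∀ j < k, t + (j : ℕ) ≠ 0) →
      ∃ c, ∀ w, ((Psi^[k] n) w).eval t = c * hh H1 H2 w t := by
  induction k with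
  | zero => exact fun t _ => ⟨g t, fun w => h.ev w t⟩
  | succ k ih =>
    intro t ht
    rw [Function.iterate_succ_apply']
    have h0 : t ≠ 0 := by
      have := ht 0 (Nat.succ_pos k)
      simpa using this
    refine Psi_eval H1 H2 h.h1 h.h2 _ t h0 (ih (t + 1) fun j hj => ?_)
    have := ht (j + 1) (Nat.succ_lt_succ hj)
    intro h2
    apply this
    rw [← h2]
    push_cast
    ring

theorem Z_card {m : ℕ} (h2m : 2 * m ≤ p) (r : ℕ) (hr : r ≤ 2 * m) : (Z p m r).card = 2 * m - r := by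
  classical
  have hinj : Set.InjOn (fun z : ℤ => (z : ZMod p)) (Ico (-(m : ℤ)) ((m : ℤ) - r)) := by
    intro a ha b hb hab
    rw [coe_Ico, Set.mem_Ico] at ha hb
    have h1 := (ZMod.intCast_eq_intCast_iff_dvd_sub a b p).1 hab
    have h2 : b - a = 0 := by
      apply Int.eq_zero_of_abs_lt_dvd h1
      rw [abs_lt]
      constructor <;> omega
    omega
  have h3 : (Z p m r).card = (Ico (-(m : ℤ)) ((m : ℤ) - r)).card := by
    unfold Z
    convert card_image_of_injOn hinj
  rw [h3, Int.card_Ico]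
  omega

theorem Z_ne {m : ℕ} (hm : 4 ≤ m) {r : ℕ} (hr : r ≤ 3) {t : ZMod p} (ht : t ∉ Z p m r) :
    ∀ j < 3, t + (j : ℕ) ≠ 0 := by
  classical
  intro j hj h0
  apply ht
  unfold Z
  rw [mem_image]
  refine ⟨-(j : ℤ), ?_, ?_⟩
  · rw [mem_Ico]
    constructor <;> omega
  · push_cast
    exact (eq_neg_of_add_eq_zero_left h0).symm

end K3S
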