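import Pool.Agent.Lib.K3S.Trace

/-!
# KillT: the operator `tau` on functionals

PROOF. `Kill_tau`: let `w` kill `Psi^k n` for `k < j + 1` and let `k < j`, `v = Psi^[k] n`. Then `Psi^[k+1] n = Psi v`
(`Function.iterate_succ_apply'`), so `∑_i w_i al (Psi v i) = 0`. Divide by `x^2`: with `s = sa 1 (v ·)`
`(w_0 - w_1/x - w_2/x^2 + w_3/x^2) s_0 + (w_1 - 2 w_3/x) s_1 + w_2 s_2 + w_3 s_3 = 0`.
Apply the ring automorphism `Sa (-1)`: `Sa (-1) (al (sa 1 (v i))) = al (v i)` (`Sa_al`, `sa (-1) (sa 1 q) = q`) and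
`Sa (-1) (al X) = al (X - 1)`: this is `∑_i tau w i * al (v i) = 0`.
`Kill_sub`, `Kill_smul`, `Kill_mono`: linear.
-/

set_option autoImplicit false

open Polynomial Finset

namespace K3S

variable {p : ℕ} [Fact p.Prime]

private theorem killT_sa (a : ZMod p) (q : (ZMod p)[X]) : sa a q = q.comp (X + C a) := by
  unfold sa
  rw [algEquivAevalXAddC_apply, comp_eq_aeval]

private theorem killT_inv (q : (ZMod p)[X]) : sa (-1) (sa 1 q) = q := by
  rw [killT_sa, killT_sa, comp_assoc]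
  simp

private theorem killT_X : sa (-1) (X : (ZMod p)[X]) = X - 1 := by
  rw [killT_sa]
  simp [sub_eq_add_neg]

theorem Kill_tau (n : Fin 4 → (ZMod p)[X]) (j : ℕ) (w : Fin 4 → K p) (h : Kill n (j + 1) w) :
    Kill n j (tau w) := by
  intro k hk
  have h1 := h (k + 1) (by omega)
  rw [Function.iterate_succ_apply'] at h1
  set v := Psi^[k] n with hv
  have h2 := congrArg (Sa (-1)) h1
  rw [map_zero, Fin.sum_univ_four] at h2
  have e0 : Psi v 0 = X ^ 2 * sa 1 (v 0) := rfl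
  have e1 : Psi v 1 = X ^ 2 * sa 1 (v 1) - X * sa 1 (v 0) := rfl
  have e2 : Psi v 2 = X ^ 2 * sa 1 (v 2) - sa 1 (v 0) := rfl
  have e3 : Psi v 3 = X ^ 2 * sa 1 (v 3) - 2 * X * sa 1 (v 1) + sa 1 (v 0) := rfl
  rw [e0, e1, e2, e3] at h2
  simp only [map_add, map_mul, map_sub, map_pow, Sa_al, killT_inv, killT_X, map_ofNat] at h2
  have hy : al (X - 1 : (ZMod p)[X]) ≠ 0 := by
    intro h0
    have h3 : (X - 1 : (ZMod p)[X]) = 0 := by
      apply IsFractionRing.injective (ZMod p)[X] (K p)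
      rw [map_zero]
      exact h0
    have h4 : (X - C 1 : (ZMod p)[X]) = 0 := by rw [C_1]; exact h3
    exact X_sub_C_ne_zero 1 h4
  rw [Fin.sum_univ_four]
  have t0 : tau w 0 = Sa (-1) (w 0) - Sa (-1) (w 1) * (al (X - 1))⁻¹ -
      Sa (-1) (w 2) * (al (X - 1))⁻¹ ^ 2 + Sa (-1) (w 3) * (al (X - 1))⁻¹ ^ 2 := rfl
  have t1 : tau w 1 = Sa (-1) (w 1) - 2 * Sa (-1) (w 3) * (al (X - 1))⁻¹ := rfl
  have t2 : tau w 2 = Sa (-1) (w 2) := rfl
  have t3 : tau w 3 = Sa (-1) (w 3) := rfl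
  rw [t0, t1, t2, t3]
  have hy' : (algebraMap (ZMod p)[X] (K p)) X - 1 ≠ 0 := by
    have h5 : al (X - 1 : (ZMod p)[X]) = (algebraMap (ZMod p)[X] (K p)) X - 1 := by
      simp [al]
    rw [← h5]
    exact hy
  simp only [al, map_sub, map_one] at h2 hy ⊢
  field_simp
  linear_combination h2

theorem Kill_mono (n : Fin 4 → (ZMod p)[X]) (i j : ℕ) (hij : i ≤ j) (w : Fin 4 → K p)
    (h : Kill n j w) : Kill n i w := by
  intro k hk
  exact h k (by omega)

theorem Kill_sub (n : Fin 4 → (ZMod p)[X]) (j : ℕ) (w v : Fin 4 → K p)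
    (h : Kill n j w) (h' : Kill n j v) : Kill n j (w - v) := by
  intro k hk
  have h1 := h k hk
  have h2 := h' k hk
  simp only [Pi.sub_apply, sub_mul, Finset.sum_sub_distrib]
  rw [h1, h2, sub_zero]

theorem Kill_smul (n : Fin 4 → (ZMod p)[X]) (j : ℕ) (c : K p) (w : Fin 4 → K p)
    (h : Kill n j w) : Kill n j (fun i => c * w i) := by
  intro k hk
  have h1 := h k hk
  simp only [mul_assoc]
  rw [← Finset.mul_sum, h1, mul_zero]

end K3S
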