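import Pool.Agent.Lib.K3S.Defs

/-!
# Shift: three properties of the operator `Psi`

PROOF. `sa 1 q = q.comp (X + C 1)`, `(sa 1 q).eval t = q.eval (t + 1)`, `natDegree (sa 1 q) = natDegree q`
(`Polynomial.natDegree_comp`, `natDegree_X_add_C`), `(X - C (e+1))^k ∣ q → (X - C e)^k ∣ sa 1 q`
(`sa 1` is an algebra map and sends `X - C (e+1)` to `X + C 1 - C (e + 1) = X - C e`).
`Psi_natDegree`: every component is a sum of terms `x^j * (shift)` with `j ≤ 2`.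
`Psi_dvd`: the orders `3, 2, 1, 1` decrease, so `(X - C e)^(oo w)` divides every term of the component `w`.
`Psi_eval`: let `t ≠ 0`, `n_w(t+1) = c h_w(t+1)`. `H1(t+1) = H1 t + t⁻¹`, `H2(t+1) = H2 t + t⁻²`:
component 0: `t² c`; 1: `t² c (H1 t + t⁻¹) - t c = t² c H1 t`; 2: `t² c (H2 t + t⁻²) - c`;
3: `t² c (H1 t + t⁻¹)² - 2 t c (H1 t + t⁻¹) + c = t² c H1² + 2 t c H1 + c - 2 t c H1 - 2 c + c`.
-/

set_option autoImplicit false

open Polynomial Finset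

namespace K3S

variable {p : ℕ} [Fact p.Prime]

private theorem Shift_sa_comp (a : ZMod p) (q : (ZMod p)[X]) : sa a q = q.comp (X + C a) := by
  unfold sa
  simp [algEquivAevalXAddC, Polynomial.comp, aeval_def]

theorem sa_eval (a t : ZMod p) (q : (ZMod p)[X]) : (sa a q).eval t = q.eval (t + a) := by
  rw [Shift_sa_comp]
  simp [eval_comp]

private theorem Shift_nd (a : ZMod p) (q : (ZMod p)[X]) : (sa a q).natDegree = q.natDegree := by
  rw [Shift_sa_comp, natDegree_comp, natDegree_X_add_C, mul_one]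

private theorem Shift_dvd (e : ZMod p) (k : ℕ) (q : (ZMod p)[X]) (h : (X - C (e + 1)) ^ k ∣ q) :
    (X - C e) ^ k ∣ sa 1 q := by
  obtain ⟨r, hr⟩ := h
  refine ⟨sa 1 r, ?_⟩
  have h1 : sa (1 : ZMod p) (X - C (e + 1)) = X - C e := by
    rw [Shift_sa_comp, sub_comp, X_comp, C_comp, C_add]
    ring
  rw [hr, map_mul, map_pow, h1]

theorem Psi_natDegree (n : Fin 4 → (ZMod p)[X]) (D : ℕ) (h : ∀ w, (n w).natDegree ≤ D) :
    ∀ w, (Psi n w).natDegree ≤ D + 2 := by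
  have hs : ∀ w, (sa 1 (n w)).natDegree ≤ D := fun w => by rw [Shift_nd]; exact h w
  have h2 : ∀ w, (X ^ 2 * sa 1 (n w)).natDegree ≤ D + 2 := fun w =>
    (natDegree_mul_le).trans (by rw [natDegree_X_pow]; have := hs w; omega)
  have h1 : ∀ w, (X * sa 1 (n w)).natDegree ≤ D + 2 := fun w =>
    (natDegree_mul_le).trans (by rw [natDegree_X]; have := hs w; omega)
  have h1' : ∀ w, (2 * X * sa 1 (n w)).natDegree ≤ D + 2 := fun w => by
    have h3 : (2 * X * sa 1 (n w) : (ZMod p)[X]) = C 2 * (X * sa 1 (n w)) := by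
      rw [← mul_assoc]; rfl
    rw [h3]
    exact (natDegree_C_mul_le _ _).trans (h1 w)
  have h0 : ∀ w, (sa 1 (n w)).natDegree ≤ D + 2 := fun w => (hs w).trans (by omega)
  intro w
  fin_cases w
  · exact h2 0
  · exact (natDegree_sub_le_of_le (h2 1) (h1 0)).trans (max_self _).le
  · exact (natDegree_sub_le_of_le (h2 2) (h0 0)).trans (max_self _).le
  · exact natDegree_add_le_of_degree_le
      ((natDegree_sub_le_of_le (h2 3) (h1' 1)).trans (max_self _).le) (h0 0)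

theorem Psi_dvd (n : Fin 4 → (ZMod p)[X]) (e : ZMod p) (h : ∀ w, (X - C (e + 1)) ^ oo w ∣ n w) :
    ∀ w, (X - C e) ^ oo w ∣ Psi n w := by
  have hs : ∀ w, (X - C e) ^ oo w ∣ sa 1 (n w) := fun w => Shift_dvd e _ _ (h w)
  have h0 : (X - C e) ^ 3 ∣ sa 1 (n 0) := hs 0
  have h1 : (X - C e) ^ 2 ∣ sa 1 (n 1) := hs 1
  have h2 : (X - C e) ^ 1 ∣ sa 1 (n 2) := hs 2
  have h3 : (X - C e) ^ 1 ∣ sa 1 (n 3) := hs 3
  have h02 : (X - C e) ^ 2 ∣ sa 1 (n 0) := (pow_dvd_pow _ (by norm_num)).trans h0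
  have h01 : (X - C e) ^ 1 ∣ sa 1 (n 0) := (pow_dvd_pow _ (by norm_num)).trans h0
  have h11 : (X - C e) ^ 1 ∣ sa 1 (n 1) := (pow_dvd_pow _ (by norm_num)).trans h1
  intro w
  fin_cases w
  · exact Dvd.dvd.mul_left h0 _
  · exact dvd_sub (Dvd.dvd.mul_left h1 _) (Dvd.dvd.mul_left h02 _)
  · exact dvd_sub (Dvd.dvd.mul_left h2 _) h01
  · exact dvd_add (dvd_sub (Dvd.dvd.mul_left h3 _) (Dvd.dvd.mul_left h11 _)) h01

theorem Psi_eval (H1 H2 : ZMod p → ZMod p) (h1 : ∀ t, H1 (t + 1) = H1 t + t⁻¹)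
    (h2 : ∀ t, H2 (t + 1) = H2 t + t⁻¹ ^ 2) (n : Fin 4 → (ZMod p)[X]) (t : ZMod p) (ht : t ≠ 0)
    (h : ∃ c, ∀ w, (n w).eval (t + 1) = c * hh H1 H2 w (t + 1)) :
    ∃ c, ∀ w, (Psi n w).eval t = c * hh H1 H2 w t := by
  obtain ⟨c, hc⟩ := h
  have e0 : (n 0).eval (t + 1) = c * 1 := hc 0
  have e1 : (n 1).eval (t + 1) = c * H1 (t + 1) := hc 1
  have e2 : (n 2).eval (t + 1) = c * H2 (t + 1) := hc 2
  have e3 : (n 3).eval (t + 1) = c * H1 (t + 1) ^ 2 := hc 3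
  rw [h1] at e1 e3
  rw [h2] at e2
  refine ⟨t ^ 2 * c, fun w => ?_⟩
  fin_cases w
  · change (X ^ 2 * sa 1 (n 0)).eval t = t ^ 2 * c * 1
    simp only [eval_mul, eval_pow, eval_X, sa_eval, e0]
    ring
  · change (X ^ 2 * sa 1 (n 1) - X * sa 1 (n 0)).eval t = t ^ 2 * c * H1 t
    simp only [eval_mul, eval_pow, eval_X, eval_sub, sa_eval, e0, e1]
    field_simp
    ring
  · change (X ^ 2 * sa 1 (n 2) - sa 1 (n 0)).eval t = t ^ 2 * c * H2 t
    simp only [eval_mul, eval_pow, eval_X, eval_sub, sa_eval, e0, e2]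
    field_simp
    ring
  · change (X ^ 2 * sa 1 (n 3) - 2 * X * sa 1 (n 1) + sa 1 (n 0)).eval t = t ^ 2 * c * H1 t ^ 2
    simp only [eval_mul, eval_pow, eval_X, eval_sub, eval_add, eval_ofNat, sa_eval, e0, e1, e3]
    field_simp
    ring

end K3S
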