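import Pool.Agent.Lib.K3S.Zero
import Pool.Agent.Lib.K3S.Dvd

/-!
# Span: the spanning lemma

PROOF. `n w` = interpolation polynomial of `g * hh w` (`exists_interp`), so `n w (t) = g(t) h_w(t)`. Moments: `natDegree_of_moments`.
Orders at `e = z`: `g e = 0` gives `(X - C e)^1 ∣ n w` for all `w`; `dvd_step` with `k = 1`, `k = 2` for `n 0` (conditions `c1`, `c2`; `h_0 = 1`)
and `k = 1` for `n 1` (condition `c3`). `zero_est` (structure `Hyp`): `n 0 = 0`, so `g t = (n 0).eval t = 0`.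
-/

set_option autoImplicit false

open Polynomial Finset

namespace K3S

variable {p : ℕ} [Fact p.Prime]

/-- The 12 m functions span: a function orthogonal to all of them is zero. -/
theorem span_lemma (m : ℕ) (hm : 4 ≤ m) (h2 : 2 * m ≤ p) (h12 : p + 42 ≤ 12 * m)
    (H1 H2 : ZMod p → ZMod p) (h1 : ∀ t, H1 (t + 1) = H1 t + t⁻¹)
    (h2' : ∀ t, H2 (t + 1) = H2 t + t⁻¹ ^ 2) (g : ZMod p → ZMod p)
    (c0 : ∀ z : ℤ, -(m : ℤ) ≤ z → z < m → g z = 0)
    (c1 : ∀ z : ℤ, -(m : ℤ) ≤ z → z < m → ∑ t : ZMod p, g t * (t - z)⁻¹ = 0)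
    (c2 : ∀ z : ℤ, -(m : ℤ) ≤ z → z < m → ∑ t : ZMod p, g t * (t - z)⁻¹ ^ 2 = 0)
    (c3 : ∀ z : ℤ, -(m : ℤ) ≤ z → z < m → ∑ t : ZMod p, g t * H1 t * (t - z)⁻¹ = 0)
    (c4 : ∀ w : Fin 4, ∀ i < m, ∑ t : ZMod p, g t * hh H1 H2 w t * t ^ i = 0) :
    g = 0 := by
  choose n hn1 hn2 using fun w : Fin 4 => exists_interp (fun t => g t * hh H1 H2 w t)
  have hw0 : ∀ t, (n 0).eval t = g t := by
    intro t
    rw [hn2]
    simp [hh]
  have hw1 : ∀ t, (n 1).eval t = g t * H1 t := by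
    intro t
    rw [hn2]
    simp [hh]
  have hroot : ∀ z : ℤ, -(m : ℤ) ≤ z → z < m → ∀ w, (X - C (z : ZMod p)) ∣ n w := by
    intro z hz1 hz2 w
    rw [dvd_iff_isRoot, IsRoot.def, hn2, c0 z hz1 hz2, zero_mul]
  have hyp : Hyp m H1 H2 g n := by
    refine ⟨hm, h2, h12, h1, h2', ?_, hn2, ?_⟩
    · intro w
      refine natDegree_of_moments (n w) m (by omega) (hn1 w) ?_
      intro i hi
      rw [← c4 w i hi]
      refine Finset.sum_congr rfl fun t _ => ?_
      rw [hn2]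
    · intro z hz1 hz2 w
      have r0 : ∀ w, (X - C (z : ZMod p)) ^ 1 ∣ n w := by
        intro w
        rw [pow_one]
        exact hroot z hz1 hz2 w
      have a0 : (X - C (z : ZMod p)) ^ 2 ∣ n 0 := by
        refine dvd_step (n 0) (hn1 0) z 1 le_rfl (r0 0) ?_
        rw [← c1 z hz1 hz2]
        refine Finset.sum_congr rfl fun t _ => ?_
        rw [hw0, pow_one]
      have b0 : (X - C (z : ZMod p)) ^ 3 ∣ n 0 := by
        refine dvd_step (n 0) (hn1 0) z 2 (by norm_num) a0 ?_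
        rw [← c2 z hz1 hz2]
        refine Finset.sum_congr rfl fun t _ => ?_
        rw [hw0]
      have a1 : (X - C (z : ZMod p)) ^ 2 ∣ n 1 := by
        refine dvd_step (n 1) (hn1 1) z 1 le_rfl (r0 1) ?_
        rw [← c3 z hz1 hz2]
        refine Finset.sum_congr rfl fun t _ => ?_
        rw [hw1, pow_one]
      fin_cases w
      · exact b0
      · exact a1
      · exact r0 2
      · exact r0 3
  have h0 := zero_est hyp
  funext t
  rw [← hw0 t, h0]
  simp

end K3S
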