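import Pool.Agent.Lib.K3S.Defs

/-!
# Trace: the automorphisms `x ↦ x + a` of the rational functions

PROOF. `Sa_al`: `IsFractionRing.ringEquivOfRingEquiv_algebraMap`. `Sa_add`: both sides are ring homomorphisms
`K → K` which agree on polynomials (`IsLocalization.ringHom_ext`, or write `f = al a / al b`,
`IsFractionRing.div_surjective`); on polynomials `sa b (sa a q) = sa (a + b) q` (both algebra maps send `X` to `X + C (a+b)`).
`Tr_Sa`: reindex `a ↦ a + b` (`Equiv.addRight`, `Fintype.sum_equiv`). `Tr_sub`: map_sub.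
`Tr_mul`: if `Sa (-1) c = c` then `Sa a c = c` for every `a` (induction on `n`: `Sa (-(n : ZMod p)) c = c` by `Sa_add`; every `a` is `-n`),
so `Tr (c f) = c Tr f`.
-/

set_option autoImplicit false

open Polynomial Finset

namespace K3S

variable {p : ℕ} [Fact p.Prime]

private theorem Trace_sa_X (a : ZMod p) : sa a (X : (ZMod p)[X]) = X + C a := by
  unfold sa
  simp

private theorem Trace_sa_add (a b : ZMod p) (q : (ZMod p)[X]) : sa b (sa a q) = sa (a + b) q := by
  have h : ((sa b : (ZMod p)[X] →ₐ[ZMod p] (ZMod p)[X]).comp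
      (sa a : (ZMod p)[X] →ₐ[ZMod p] (ZMod p)[X])) =
      (sa (a + b) : (ZMod p)[X] →ₐ[ZMod p] (ZMod p)[X]) := by
    apply Polynomial.algHom_ext
    show sa b (sa a X) = sa (a + b) X
    rw [Trace_sa_X, Trace_sa_X, map_add, Trace_sa_X]
    have h2 : sa b (C a : (ZMod p)[X]) = C a := (sa b).commutes a
    rw [h2, C_add]
    ring
  exact congrArg (fun F : (ZMod p)[X] →ₐ[ZMod p] (ZMod p)[X] => F q) h

theorem Sa_al (a : ZMod p) (q : (ZMod p)[X]) : Sa a (al q) = al (sa a q) := by
  unfold Sa al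
  exact IsFractionRing.ringEquivOfRingEquiv_algebraMap _ _

theorem Sa_add (a b : ZMod p) (f : K p) : Sa b (Sa a f) = Sa (a + b) f := by
  obtain ⟨u, v, _, rfl⟩ := IsFractionRing.div_surjective (A := (ZMod p)[X]) f
  rw [map_div₀, map_div₀, map_div₀]
  have h1 : Sa b (Sa a (al u)) = Sa (a + b) (al u) := by
    rw [Sa_al, Sa_al, Sa_al, Trace_sa_add]
  have h2 : Sa b (Sa a (al v)) = Sa (a + b) (al v) := by
    rw [Sa_al, Sa_al, Sa_al, Trace_sa_add]
  rw [h1, h2]

theorem Tr_Sa (b : ZMod p) (f : K p) : Tr (Sa b f) = Tr f := by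
  unfold Tr
  refine Fintype.sum_equiv (Equiv.addLeft b) _ _ ?_
  intro a
  rw [Sa_add]
  rfl

theorem Tr_sub (f g : K p) : Tr (f - g) = Tr f - Tr g := by
  unfold Tr
  rw [← Finset.sum_sub_distrib]
  exact Finset.sum_congr rfl fun a _ => map_sub _ _ _

private theorem Trace_fix (c : K p) (hc : Sa (-1) c = c) (n : ℕ) : Sa (-(n : ZMod p)) c = c := by
  induction n with
  | zero =>
    have h := Sa_add (-1 : ZMod p) (0 : ZMod p) c
    rw [add_zero, hc] at h
    rw [Nat.cast_zero, neg_zero]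
    exact h
  | succ n ih =>
    have h := Sa_add (-(n : ZMod p)) (-1) c
    rw [ih, hc] at h
    rw [Nat.cast_succ, neg_add]
    exact h.symm

theorem Tr_mul (c f : K p) (hc : Sa (-1) c = c) : Tr (c * f) = c * Tr f := by
  unfold Tr
  rw [Finset.mul_sum]
  refine Finset.sum_congr rfl fun a _ => ?_
  rw [map_mul]
  congr 1
  have h : a = -((-a).val : ZMod p) := by
    rw [ZMod.natCast_val, ZMod.cast_id, neg_neg]
  rw [h]
  exact Trace_fix c hc _

end K3S
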