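import Pool.Agent.Lib.K3S.Iter
import Pool.Agent.Lib.K3S.DetOrd

/-!
# ZA: the 4 x 4 determinant vanishes

PROOF. Delta = det of `v k i = (Psi^[k] n) i`, `k < 4`. Orders (`eq_zero_of_orders` with `o t = if t ∈ Z p m 3 then 7 else 3`):
at `t = z`, `-m ≤ z < m - 3`: `dvd_of_rows` with `oo` (`∑ oo = 7`), `iter_dvd` (`z + k < m` for `k ≤ 3`).
At the other `t`: `Z_ne`, `iter_eval` for `k ≤ 3`, `dvd_of_rank_one` (`hh _ _ 0 t = 1`): order `3`.
`∑ o = 3 p + 4 (2m - 3)` (`Z_card`, `ZMod.card`), `natDegree ≤ ∑_{j<4} (p - 1 - m + 2j) = 4 (p-1-m) + 12` (`natDegree_det`, `iter_deg`),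
and `4 (p-1-m) + 12 < 3 p + 4 (2m - 3)` because `p + 42 ≤ 12 m`.
-/

set_option autoImplicit false

open Polynomial Finset

namespace K3S

variable {p : ℕ} [Fact p.Prime]

theorem delta4 {m : ℕ} {H1 H2 g : ZMod p → ZMod p} {n : Fin 4 → (ZMod p)[X]}
    (h : Hyp m H1 H2 g n) :
    (Matrix.of fun i k : Fin 4 => (Psi^[(k : ℕ)] n) i).det = 0 := by
  have hm := h.hm
  have h2m := h.h2m
  have h12 := h.h12
  apply eq_zero_of_orders _ (fun t => if t ∈ Z p m 3 then 7 else 3)
  · intro t
    by_cases ht : t ∈ Z p m 3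
    · simp only [if_pos ht]
      have hz := ht
      rw [Z, Finset.mem_image] at hz
      obtain ⟨z, hz, rfl⟩ := hz
      rw [Finset.mem_Ico] at hz
      have h7 : (∑ i, oo i) = 7 := by simp [Fin.sum_univ_four, oo]
      rw [← h7]
      apply dvd_of_rows
      intro i j
      rw [Matrix.of_apply]
      have hj := j.isLt
      exact iter_dvd h j z hz.1 (by push_cast at hz; omega) i
    · simp only [if_neg ht]
      apply dvd_of_rank_one _ t (fun i => hh H1 H2 i t)
      · simp [hh]
      · intro j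
        have hj := j.isLt
        obtain ⟨c, hc⟩ := iter_eval h (j : ℕ) t
          (fun j' hj' => Z_ne hm (le_refl 3) ht j' (by omega))
        exact ⟨c, fun i => by rw [Matrix.of_apply]; exact hc i⟩
  · have h1 : (∑ t : ZMod p, (if t ∈ Z p m 3 then 7 else 3)) = 3 * p + 4 * (2 * m - 3) := by
      have h2 : ∀ t : ZMod p, (if t ∈ Z p m 3 then 7 else 3)
          = 3 + (if t ∈ Z p m 3 then 4 else 0) := by
        intro t
        split_ifs <;> rfl
      rw [Finset.sum_congr rfl fun t _ => h2 t, Finset.sum_add_distrib, Finset.sum_const,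
        Finset.sum_ite_mem, Finset.univ_inter, Finset.sum_const, Finset.card_univ, ZMod.card,
        Z_card h2m 3 (by omega)]
      simp only [smul_eq_mul]
      ring
    rw [h1]
    refine lt_of_le_of_lt (natDegree_det _ (p - 1 - m) ?_) ?_
    · intro i j
      rw [Matrix.of_apply]
      exact iter_deg h j i
    · simp only [Fin.sum_univ_four]
      have e0 : ((0 : Fin 4) : ℕ) = 0 := rfl
      have e1 : ((1 : Fin 4) : ℕ) = 1 := rfl
      have e2 : ((2 : Fin 4) : ℕ) = 2 := rfl
      have e3 : ((3 : Fin 4) : ℕ) = 3 := rfl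
      rw [e0, e1, e2, e3]
      omega

end K3S
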