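import Pool.Agent.Lib.K3S.Iter
import Pool.Agent.Lib.K3S.DetOrd

/-!
# ZB: the 3 x 3 determinant vanishes

PROOF. Write `v k i = (Psi^[k] n) i`, `D013` = the determinant of the statement (rows `0, 1, 3`), `D023` = the same with the rows `0, 2, 3`.
In `K`: row 1 = `- P * row 2 - f * row 0`, so `al D013 = - al P * al D023` (`Matrix.det_fin_three`, `linear_combination`), and `al` is
injective (`IsFractionRing.injective`): `D013 = - P D023`.
Orders (`eq_zero_of_orders` with `o t = if t ∈ Z p m 2 then 6 else 3`): `X - C t ∣ P` for every `t` (`t^p = t`).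
At `t = z`, `-m ≤ z < m - 2`: `D023` has order `≥ 3 + 1 + 1` (`dvd_of_rows`, `iter_dvd`, `z + k < m` for `k ≤ 2`). At the other `t`:
`Z_ne`, `iter_eval` for `k ≤ 2`, `dvd_of_rank_one`: `D023` has order `≥ 2`.
`∑ o = 3 p + 3 (2m - 2)`, `natDegree D013 ≤ 3 (p-1-m) + 6` (`natDegree_det`, `iter_deg`), which is smaller.
-/

set_option autoImplicit false

open Polynomial Finset

namespace K3S

variable {p : ℕ} [Fact p.Prime]

private theorem ZB_X_dvd (t : ZMod p) : (X - C t) ∣ PP p := by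
  rw [Polynomial.dvd_iff_isRoot, Polynomial.IsRoot.def, PP]
  simp [ZMod.pow_card]

private theorem ZB_rel {m : ℕ} {H1 H2 g : ZMod p → ZMod p} {n : Fin 4 → (ZMod p)[X]}
    (_h : Hyp m H1 H2 g n) (f : K p)
    (hf : ∀ k < 4, al (PP p) * al ((Psi^[k] n) 2) + al ((Psi^[k] n) 1) +
      f * al ((Psi^[k] n) 0) = 0) :
    (Matrix.of fun i k : Fin 3 => (Psi^[(k : ℕ)] n) ((![0, 1, 3] : Fin 3 → Fin 4) i)).det =
      -(PP p) *
        (Matrix.of fun i k : Fin 3 => (Psi^[(k : ℕ)] n) ((![0, 2, 3] : Fin 3 → Fin 4) i)).det := by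
  apply IsFractionRing.injective (ZMod p)[X] (K p)
  have e0 := hf 0 (by norm_num)
  have e1 := hf 1 (by norm_num)
  have e2 := hf 2 (by norm_num)
  rw [Matrix.det_fin_three, Matrix.det_fin_three]
  simp only [Matrix.of_apply, Matrix.cons_val_zero, Matrix.cons_val_one, Matrix.cons_val,
    Fin.val_zero, Fin.val_one, Fin.val_two]
  simp only [map_add, map_sub, map_mul, map_neg]
  set a0 := (algebraMap (ZMod p)[X] (K p)) ((Psi^[0] n) 0)
  set a1 := (algebraMap (ZMod p)[X] (K p)) ((Psi^[1] n) 0)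
  set a2 := (algebraMap (ZMod p)[X] (K p)) ((Psi^[2] n) 0)
  set b0 := (algebraMap (ZMod p)[X] (K p)) ((Psi^[0] n) 1)
  set b1 := (algebraMap (ZMod p)[X] (K p)) ((Psi^[1] n) 1)
  set b2 := (algebraMap (ZMod p)[X] (K p)) ((Psi^[2] n) 1)
  set c0 := (algebraMap (ZMod p)[X] (K p)) ((Psi^[0] n) 2)
  set c1 := (algebraMap (ZMod p)[X] (K p)) ((Psi^[1] n) 2)
  set c2 := (algebraMap (ZMod p)[X] (K p)) ((Psi^[2] n) 2)
  set d0 := (algebraMap (ZMod p)[X] (K p)) ((Psi^[0] n) 3)
  set d1 := (algebraMap (ZMod p)[X] (K p)) ((Psi^[1] n) 3)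
  set d2 := (algebraMap (ZMod p)[X] (K p)) ((Psi^[2] n) 3)
  set P := (algebraMap (ZMod p)[X] (K p)) (PP p)
  have f0 : b0 = -(P * c0) - f * a0 := by linear_combination e0
  have f1 : b1 = -(P * c1) - f * a1 := by linear_combination e1
  have f2 : b2 = -(P * c2) - f * a2 := by linear_combination e2
  rw [f0, f1, f2]
  ring

theorem delta3 {m : ℕ} {H1 H2 g : ZMod p → ZMod p} {n : Fin 4 → (ZMod p)[X]}
    (h : Hyp m H1 H2 g n) (f : K p)
    (hf : ∀ k < 4, al (PP p) * al ((Psi^[k] n) 2) + al ((Psi^[k] n) 1) +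
      f * al ((Psi^[k] n) 0) = 0) :
    (Matrix.of fun i k : Fin 3 => (Psi^[(k : ℕ)] n) ((![0, 1, 3] : Fin 3 → Fin 4) i)).det = 0 := by
  classical
  have hm := h.hm
  have h2m := h.h2m
  refine eq_zero_of_orders _ (fun t => if t ∈ Z p m 2 then 6 else 3) ?_ ?_
  · intro t
    rw [ZB_rel h f hf]
    have hP : (X - C t) ∣ -(PP p) := (dvd_neg).2 (ZB_X_dvd t)
    by_cases ht : t ∈ Z p m 2
    · simp only [if_pos ht]
      have ht' := ht
      unfold Z at ht'
      rw [mem_image] at ht'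
      obtain ⟨z, hz, rfl⟩ := ht'
      rw [mem_Ico] at hz
      have key := dvd_of_rows
        (Matrix.of fun i k : Fin 3 => (Psi^[(k : ℕ)] n) ((![0, 2, 3] : Fin 3 → Fin 4) i))
        ((z : ℤ) : ZMod p) (fun i => oo ((![0, 2, 3] : Fin 3 → Fin 4) i)) (by
          intro i j
          simp only [Matrix.of_apply]
          refine iter_dvd h (j : ℕ) z hz.1 ?_ _
          have := j.2
          push_cast at hz
          omega)
      have hs : (∑ i : Fin 3, oo ((![0, 2, 3] : Fin 3 → Fin 4) i)) = 5 := by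
        rw [Fin.sum_univ_three]
        rfl
      rw [hs] at key
      have h6 : (X - C ((z : ℤ) : ZMod p)) ^ 6 =
          (X - C ((z : ℤ) : ZMod p)) * (X - C ((z : ℤ) : ZMod p)) ^ 5 := by ring
      rw [h6]
      exact mul_dvd_mul hP key
    · simp only [if_neg ht]
      have hne := Z_ne hm (by norm_num : (2 : ℕ) ≤ 3) ht
      have key := dvd_of_rank_one
        (Matrix.of fun i k : Fin 3 => (Psi^[(k : ℕ)] n) ((![0, 2, 3] : Fin 3 → Fin 4) i))
        t (fun i => hh H1 H2 ((![0, 2, 3] : Fin 3 → Fin 4) i) t) rfl (by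
          intro j
          obtain ⟨c, hc⟩ := iter_eval h (j : ℕ) t (fun i hi => hne i (by have := j.2; omega))
          exact ⟨c, fun i => hc _⟩)
      have h3 : (X - C t) ^ 3 = (X - C t) * (X - C t) ^ 2 := by ring
      rw [h3]
      exact mul_dvd_mul hP key
  · have hdeg := natDegree_det
      (Matrix.of fun i k : Fin 3 => (Psi^[(k : ℕ)] n) ((![0, 1, 3] : Fin 3 → Fin 4) i))
      (p - 1 - m) (fun i j => iter_deg h (j : ℕ) _)
    have hsum : (∑ j : Fin 3, (p - 1 - m + 2 * (j : ℕ))) = 3 * (p - 1 - m) + 6 := by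
      rw [Fin.sum_univ_three]
      simp only [Fin.val_zero, Fin.val_one, Fin.val_two]
      ring
    rw [hsum] at hdeg
    have hcard := Z_card (p := p) h2m 2 (by omega)
    have hso : (∑ t : ZMod p, if t ∈ Z p m 2 then 6 else 3) = 3 * p + 3 * (2 * m - 2) := by
      have e : ∀ t : ZMod p, (if t ∈ Z p m 2 then 6 else 3) = 3 + (if t ∈ Z p m 2 then 3 else 0) := by
        intro t
        split_ifs <;> rfl
      rw [Finset.sum_congr rfl fun t _ => e t, Finset.sum_add_distrib, Finset.sum_ite_mem,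
        Finset.univ_inter, Finset.sum_const, Finset.sum_const, Finset.card_univ, ZMod.card, hcard]
      simp only [smul_eq_mul]
      ring
    rw [hso]
    omega

end K3S
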