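import Pool.Agent.Lib.K3S.Class
import Pool.Agent.Lib.K3S.ZA
import Pool.Agent.Lib.K3S.ZB

/-!
# Zero: the zero estimate
-/

set_option autoImplicit false

open Polynomial Finset

namespace K3S

variable {p : ℕ} [Fact p.Prime]

theorem zero_est {m : ℕ} {H1 H2 g : ZMod p → ZMod p} {n : Fin 4 → (ZMod p)[X]}
    (h : Hyp m H1 H2 g n) : n 0 = 0 := by
  by_contra hn
  have hp : p ≠ 2 := by
    have h1 := h.hm
    have h2 := h.h2m
    omega
  obtain ⟨f, hf⟩ := exc hp n hn (delta4 h)
  exact det3_ne hp n hn (delta3 h f hf)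

end K3S
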